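import Pool.Agent.Y208.BH.Asm2
import Pool.Agent.Y208.BH.Asm3
import Pool.Agent.H170.BH.Leta
import Pool.Agent.Y721.BH.Letb
import Pool.Agent.Y484.BH.UQ
import Pool.Agent.Y497.BH.TF1
import Pool.Agent.Y484.BH.TF2
import Pool.Agent.Y572.BH.TF3
import Pool.Agent.Y983.BH.TF4
import Pool.Agent.Y627.BH.TF5
import Pool.Agent.Y319.BH.Tya
import Pool.Agent.Y455.BH.Cent
import Pool.Agent.Y497.BH.Nuh
import Pool.Agent.Y455.BH.Conj
import Pool.Agent.Y455.BH.Basic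
import Pool.Agent.Y665.BH.K1
import Pool.Agent.Y891.BH.Rows
import Pool.Agent.Y537.BH.Act
import Pool.Agent.Y781.BH.Inj
import Pool.Agent.Y151.BH.Bim
import Pool.Agent.Y151.BH.Fgs
import Pool.Agent.Y845.BH.Grp
import Pool.Agent.Y497.BH.Pair
import Pool.Agent.Y279.BH.FPQ
import Pool.Agent.Y469.BH.Stab
import Pool.Agent.Y88.BH.Fpo
import Pool.Agent.Y208.LQ.Fin

/-!
Every finitely presented group with solvable word problem embeds in a finitely presented group with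
a faithful action of type (A).
-/

set_option autoImplicit false

namespace Y208.BH

open Pool.Agent.Results.MP_24fec0_al.TypeAOligomorphic

theorem t_LET' : S_LET := t_LET Pool.Agent.H170.BH.t_LETA Pool.Agent.Y721.BH.t_LETB

theorem t_FPQ' : S_FPQ := Pool.Agent.Y279.BH.t_FPQ t_LET' Pool.Agent.Y497.BH.t_PAIR
  Pool.Agent.Y484.BH.t_UNIQ Pool.Agent.Y484.BH.t_QUO

theorem t_K2' : S_K2 := t_K2 Pool.Agent.Y455.BH.cent Pool.Agent.Y497.BH.t_NUH
  Pool.Agent.Y455.BH.t_conj Pool.Agent.Y455.BH.sumu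

theorem t_TYA' : S_TYA := Pool.Agent.Y319.BH.t_TYA Pool.Agent.Y497.BH.t_TF1
  Pool.Agent.Y484.BH.t_TF2 Y572.BH.t_TF3 Pool.Agent.Y983.BH.t_TF4 Y627.BH.t_TF5

/-- Every finitely presented group with computable word problem embeds in a finitely presented
group with a faithful action of type (A). -/
theorem typeA (n : ℕ) (rels : Finset (FreeGroup (Fin n)))
    (hwp : ComputablePred (fun w : List (Fin n × Bool) =>
      PresentedGroup.mk (rels : Set (FreeGroup (Fin n))) (FreeGroup.mk w) = 1)) :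
    EmbedsTypeA (PresentedGroup (rels : Set (FreeGroup (Fin n)))) := by
  obtain ⟨R, V, _, _, _, _, v0, h1, h2, h3, θ, hθ⟩ := t_RING Pool.Agent.Y845.BH.t_GRP
    Y88.BH.t_FPO Pool.Agent.Y151.BH.Bim.t_BIM Pool.Agent.Y547.LQ.t_J1a
    Pool.Agent.Y547.LQ.t_J1b Y208.LQ.t_SIMP' Pool.Agent.Y839.LQ.t_TFP Pool.Agent.Y968.LQ.t_CEN
    n rels hwp
  exact t_CORE t_FPQ' t_TYA' Pool.Agent.Y665.BH.t_K1 Pool.Agent.Y891.BH.t_TR
    (Pool.Agent.Y469.BH.t_STAB Pool.Agent.Y891.BH.t_TV) Pool.Agent.Y537.BH.t_ACT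
    Pool.Agent.Y151.BH.Fgs.t_FGS (Pool.Agent.Y781.BH.t_INJ t_K2') _ R V v0 h1 h2 h3 θ hθ

end Y208.BH
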