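import Pool.Agent.Y208.BH.Stm

set_option autoImplicit false

open scoped commutatorElement TensorProduct

namespace Y208.BH

theorem t_LET (hA : S_LETA) (hB : S_LETB) : S_LET := by
  intro A I Γ _ _ y hy
  obtain ⟨X, hX, h1, h2⟩ := hA A I Γ y hy
  obtain ⟨x, hx, h3⟩ := hB (FreeMonoid A) I Γ X hX
  let e := (FreeAlgebra.equivMonoidAlgebraFreeMonoid (R := ZMod 2) (X := A))
  refine ⟨fun i j r => x i j (e r), ?_, ?_, ?_⟩
  · refine ⟨fun i j h a b => ?_, fun i j k h1 h2 h3 a b => ?_, fun i j k l h1 h2 h3 h4 a b => ?_⟩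
    · rw [map_add]; exact hx.add i j h _ _
    · rw [map_mul]; exact hx.mul i j k h1 h2 h3 _ _
    · exact hx.comm i j k l h1 h2 h3 h4 _ _
  · intro i j h
    rw [← h1 i j h, ← h3 i j 1 h, map_one]
    show x i j (e 1) = x i j 1
    rw [map_one]
  · intro i j a h
    rw [← h2 i j a h, ← h3 i j _ h]
    congr 1
    simp [e, FreeAlgebra.equivMonoidAlgebraFreeMonoid]

theorem mapSU_id {R I : Type} [Ring R] (z : SU R I) :
    mapSU id Function.injective_id (NonUnitalRingHom.id R) z = z := by
  have : mapSU id Function.injective_id (NonUnitalRingHom.id R) = MonoidHom.id (SU R I) := by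
    apply PresentedGroup.ext
    rintro ⟨i, j, r⟩
    exact mapSU_xs id Function.injective_id (NonUnitalRingHom.id R) i j r
  rw [this]; rfl

theorem t_K2 (hC : S_CENT) (hN : S_NUH) (hJ : S_CONJ) (hS : S_SUMU) : S_K2 := by
  rintro R I _ _ ⟨e, e', s, s', Φ, ee, es, se, Φl, Φr, Φe⟩ z hz
  have hc : ∀ y, Commute z y := hC R I z hz
  let f : R →ₙ+* R :=
    { toFun := fun a => e * a * e'
      map_zero' := by simp
      map_add' := fun a b => by rw [mul_add, add_mul]
      map_mul' := fun a b => by
        calc e * (a * b) * e' = e * a * 1 * b * e' := by simp [mul_assoc]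
          _ = e * a * (e' * e) * b * e' := by rw [ee]
          _ = e * a * e' * (e * b * e') := by simp only [mul_assoc] }
  let g : R →ₙ+* R :=
    { toFun := fun a => s * Φ a * s'
      map_zero' := by simp
      map_add' := fun a b => by rw [map_add, mul_add, add_mul]
      map_mul' := fun a b => by
        calc s * Φ (a * b) * s' = s * (Φ a * (s' * s)) * Φ b * s' := by
              rw [map_mul, Φr]; simp only [mul_assoc]
          _ = s * Φ a * s' * (s * Φ b * s') := by simp only [mul_assoc] }
  have hfg := hS R I f g Φ (s * s') (fun a => Φe a)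
    (fun a b => by
      show e * a * e' * (s * Φ b * s') = 0
      calc e * a * e' * (s * Φ b * s') = e * a * (e' * s) * Φ b * s' := by simp only [mul_assoc]
        _ = 0 := by rw [es]; simp)
    (fun a b => by
      show s * Φ a * s' * (e * b * e') = 0
      calc s * Φ a * s' * (e * b * e') = s * Φ a * (s' * e) * b * e' := by simp only [mul_assoc]
        _ = 0 := by rw [se]; simp)
    (fun a => by
      show s * Φ a * s' * (s * s') = s * Φ a * s'
      calc s * Φ a * s' * (s * s') = s * (Φ a * (s' * s)) * s' := by simp only [mul_assoc]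
        _ = _ := by rw [Φr])
    (fun a => by
      show s * s' * (e * a * e') = 0
      calc s * s' * (e * a * e') = s * (s' * e) * a * e' := by simp only [mul_assoc]
        _ = 0 := by rw [se]; simp) z
  obtain ⟨h, hh⟩ := hJ R I e e' (NonUnitalRingHom.id R) f (fun r => by simp [ee])
    (fun r => by simp [ee]) (fun r => rfl) z
  rw [mapSU_id, ← (hc h).eq, mul_inv_cancel_right] at hh
  obtain ⟨h', hh'⟩ := hJ R I s s' Φ g Φl Φr (fun r => rfl) z
  have hc' : ∀ y, Commute (mapSU id Function.injective_id Φ z) y :=
    hC R I _ (hN R R I Φ z hz)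
  rw [← (hc' h').eq, mul_inv_cancel_right] at hh'
  rw [hh, hh'] at hfg
  exact mul_eq_right.1 hfg.symm

end Y208.BH
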