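import Pool.Agent.Y208.BH.Asm1
import Pool.Agent.Results.MP_24fec0_al.TypeAOligomorphic

set_option autoImplicit false

open scoped commutatorElement TensorProduct

namespace Y208.BH

open Pool.Agent.Results.MP_24fec0_al.TypeAOligomorphic

theorem fg_map {G G' : Type*} [Group G] [Group G'] (f : G →* G') {P : Subgroup G} (h : P.FG) :
    (P.map f).FG := by
  classical
  obtain ⟨T, rfl⟩ := h
  exact ⟨T.image f, by rw [Finset.coe_image, MonoidHom.map_closure]⟩

theorem embedsTypeA_of (H Q X : Type) [Group H] [Group Q] [Group.IsFinitelyPresented Q]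
    (φ : H →* Q) (hφ : Function.Injective φ) [Infinite X] (ρ : Q →* Equiv.Perm X)
    (hρ : Function.Injective ρ)
    (h2 : ∀ x y x' y' : X, x ≠ y → x' ≠ y' → ∃ q, ρ q x = x' ∧ ρ q y = y')
    (hst : ∃ s : X, ((MulAction.stabilizer (Equiv.Perm X) s).comap ρ).FG) : EmbedsTypeA H := by
  obtain ⟨m, r, hr, ⟨θ⟩⟩ := Group.IsFinitelyPresented.exists_mulEquiv_presentedGroup (G := Q)
  obtain ⟨r', rfl⟩ := hr.exists_finset_coe
  have h1 : ∀ x x' : X, ∃ q, ρ q x = x' := by
    intro x x'
    obtain ⟨y, hy⟩ : ∃ y, y ≠ x := exists_ne x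
    obtain ⟨y', hy'⟩ : ∃ y', y' ≠ x' := exists_ne x'
    obtain ⟨q, hq, -⟩ := h2 x y x' y' hy.symm hy'.symm
    exact ⟨q, hq⟩
  refine ⟨m, r', θ.toMonoidHom.comp φ, X, inferInstance, ρ.comp θ.symm.toMonoidHom,
    θ.injective.comp hφ, hρ.comp θ.symm.injective, ?_, ?_⟩
  · apply Set.Finite.subset (s := {{y : X × X | y.1 = y.2}, {y : X × X | y.1 ≠ y.2}})
      (Set.toFinite _)
    rintro _ ⟨⟨a, b⟩, rfl⟩
    by_cases hab : a = b
    · left
      subst hab
      ext ⟨c, d⟩
      constructor
      · rintro ⟨h, hh⟩
        rw [Prod.mk.injEq] at hh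
        exact hh.1.trans hh.2.symm
      · rintro hcd
        have hcd' : c = d := hcd
        obtain ⟨q, hq⟩ := h1 a c
        refine ⟨θ q, ?_⟩
        show (c, d) = (ρ (θ.symm (θ q)) a, ρ (θ.symm (θ q)) a)
        rw [MulEquiv.symm_apply_apply, hq, hcd']
    · right
      ext ⟨c, d⟩
      constructor
      · rintro ⟨h, hh⟩
        rw [Prod.mk.injEq] at hh
        show c ≠ d
        rw [hh.1, hh.2]
        exact fun hc => hab ((ρ.comp θ.symm.toMonoidHom h).injective hc)
      · rintro hcd
        have hcd' : c ≠ d := hcd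
        obtain ⟨q, hq, hq'⟩ := h2 a b c d hab hcd'
        refine ⟨θ q, ?_⟩
        show (c, d) = (ρ (θ.symm (θ q)) a, ρ (θ.symm (θ q)) b)
        rw [MulEquiv.symm_apply_apply, hq, hq']
  · intro t
    obtain ⟨s, hs⟩ := hst
    obtain ⟨g, hg⟩ := h1 s t
    have e : ((MulAction.stabilizer (Equiv.Perm X) t).comap (ρ.comp θ.symm.toMonoidHom)) =
        (((MulAction.stabilizer (Equiv.Perm X) s).comap ρ).map
          (MulAut.conj g).toMonoidHom).map θ.toMonoidHom := by
      ext q
      constructor
      · intro hq
        have hq' : ρ (θ.symm q) t = t := hq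
        refine ⟨θ.symm q, ⟨g⁻¹ * θ.symm q * g, ?_, ?_⟩, ?_⟩
        · show ρ (g⁻¹ * θ.symm q * g) s = s
          rw [map_mul, map_mul, Equiv.Perm.mul_apply, Equiv.Perm.mul_apply, hg, hq', map_inv,
            Equiv.Perm.inv_eq_iff_eq, hg]
        · show g * (g⁻¹ * θ.symm q * g) * g⁻¹ = θ.symm q
          group
        · exact θ.apply_symm_apply q
      · rintro ⟨_, ⟨p, hp, rfl⟩, rfl⟩
        have hp' : ρ p s = s := hp
        show ρ (θ.symm (θ (g * p * g⁻¹))) t = t
        rw [MulEquiv.symm_apply_apply, ← hg, ← Equiv.Perm.mul_apply, ← map_mul,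
          inv_mul_cancel_right, map_mul, Equiv.Perm.mul_apply, hp']
    rw [e]
    exact fg_map _ (fg_map _ hs)

theorem dg_mul {R V I : Type} [Ring R] [AddCommGroup V] [Module R V] (o : I) (u v : Rˣ) :
    (dg o (u * v) : Equiv.Perm (I →₀ V)) = dg o u * dg o v := by
  apply Equiv.ext
  intro w
  rw [Equiv.Perm.mul_apply]
  simp only [dg, Equiv.coe_fn_mk]
  simp only [Finsupp.coe_add, Pi.add_apply, Finsupp.single_eq_same, add_sub_cancel]
  rw [add_assoc, ← Finsupp.single_add, Units.val_mul, mul_smul]
  congr 2
  abel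

/-- diagonal matrices -/
noncomputable def dgH (R V I : Type) [Ring R] [AddCommGroup V] [Module R V] (o : I) :
    Rˣ →* Equiv.Perm (I →₀ V) where
  toFun u := dg o u
  map_one' := by
    apply Equiv.ext
    intro w
    simp [dg]
  map_mul' := dg_mul o

theorem dgH_inj (R V I : Type) [Ring R] [AddCommGroup V] [Module R V] (o : I)
    (hf : ∀ r : R, (∀ v : V, r • v = 0) → r = 0) : Function.Injective (dgH R V I o) := by
  rw [injective_iff_map_eq_one]
  intro u hu
  apply Units.ext
  rw [Units.val_one, ← sub_eq_zero]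
  apply hf
  intro v
  have h := congrArg (fun g : Equiv.Perm (I →₀ V) => (g (Finsupp.single o v)) o) hu
  simp only [dgH, dg, MonoidHom.coe_mk, OneHom.coe_mk, Equiv.coe_fn_mk, Finsupp.coe_add,
    Pi.add_apply, Finsupp.single_eq_same, add_sub_cancel, Equiv.Perm.coe_one, id_eq] at h
  rw [sub_smul, one_smul, h, sub_self]

theorem t_CORE (hFPQ : S_FPQ) (hTYA : S_TYA) (hK1 : S_K1) (hTR : S_TR) (hSTAB : S_STAB)
    (hACT : S_ACT) (hFGS : S_FGS) (hINJ : S_INJ) (H R V : Type) [Group H] [Ring R]
    [Algebra (ZMod 2) R] [AddCommGroup V] [Module R V] (v0 : V) (hfp : FPA R) (hsw : SwR R)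
    (hgood : Good R V v0) (θ : H →* Rˣ) (hθ : Function.Injective θ) : EmbedsTypeA H := by
  obtain ⟨Λ, S, _, _, hA⟩ := hTYA
  have : Infinite S := hA.inf
  obtain ⟨Q, _, i, x, hQ, hE⟩ := hFPQ Λ S R hA hfp
  obtain ⟨π, hπi, hπx⟩ := hACT Λ S R V Q i x hE
  have hinj : Function.Injective π := hINJ Λ S R V Q i x v0 hA hsw hE hgood π hπi hπx
  let I := S ⊕ Fin 4
  have hsub : EG R V I ≤ π.range := by
    rw [EG, Subgroup.closure_le]
    rintro _ ⟨a, b, r, hab, rfl⟩
    exact ⟨x a b r, hπx a b r hab⟩
  let o : I := .inr 0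
  -- the embedding
  let φ : H →* Q := (MonoidHom.ofInjective hinj).symm.toMonoidHom.comp
    ((((dgH R V I o).comp θ)).codRestrict π.range (fun h => hsub (hK1 R V I hsw o (θ h))))
  have hφ : Function.Injective φ := by
    apply (MonoidHom.ofInjective hinj).symm.injective.comp
    intro a b hab
    exact hθ (dgH_inj R V I o hgood.faithful (congrArg Subtype.val hab))
  -- zero
  have h0 : ∀ q : Q, π q 0 = 0 := by
    intro q
    have hq : q ∈ Subgroup.closure (Set.range i ∪ {z | ∃ a b r, a ≠ b ∧ z = x a b r}) := by
      rw [hE.gen]; trivial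
    induction hq using Subgroup.closure_induction with
    | mem q hq =>
      rcases hq with ⟨g, rfl⟩ | ⟨a, b, r, hab, rfl⟩
      · rw [hπi]
        exact map_zero (Finsupp.domCongr (M := V)
          (Equiv.sumCongr (MulAction.toPerm g) (Equiv.refl (Fin 4))))
      · rw [hπx a b r hab, el_apply hab]; simp
    | one => simp
    | mul a b _ _ ha hb => rw [map_mul, Equiv.Perm.mul_apply, hb, ha]
    | inv a _ ha => rw [map_inv, Equiv.Perm.inv_eq_iff_eq, ha]
  have h0' : ∀ (q : Q) (w : I →₀ V), π q w ≠ 0 ↔ w ≠ 0 := by
    intro q w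
    rw [not_iff_not]
    constructor
    · intro h
      exact (π q).injective (h.trans (h0 q).symm)
    · rintro rfl
      exact h0 q
  let X := {w : I →₀ V // w ≠ 0}
  have hne : ∀ a : I, (Finsupp.single a v0 : I →₀ V) ≠ 0 := fun a => by
    rw [Ne, Finsupp.single_eq_zero]; exact hgood.v0ne
  have : Infinite X := by
    apply Infinite.of_injective (fun s : S => (⟨Finsupp.single (.inl s) v0, hne _⟩ : X))
    intro s t hst
    have := congrArg Subtype.val hst
    have := (Finsupp.single_left_inj hgood.v0ne).1 this
    exact Sum.inl_injective this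
  let ρ : Q →* Equiv.Perm X :=
    { toFun := fun q => (π q).subtypePerm (h0' q)
      map_one' := by
        apply Equiv.ext; intro w; apply Subtype.ext
        simp [Equiv.Perm.subtypePerm_apply]
      map_mul' := fun q q' => by
        apply Equiv.ext; intro w; apply Subtype.ext
        simp [Equiv.Perm.subtypePerm_apply] }
  have hρv : ∀ q (w : X), ((ρ q w : X) : I →₀ V) = π q w := fun q w => rfl
  have hρ : Function.Injective ρ := by
    intro q q' h
    apply hinj
    apply Equiv.ext
    intro w
    by_cases hw : w = 0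
    · rw [hw, h0, h0]
    · exact congrArg Subtype.val (congrArg (fun g : Equiv.Perm X => g ⟨w, hw⟩) h)
  refine embedsTypeA_of H Q X φ hφ ρ hρ ?_ ?_
  · intro w₁ w₂ u₁ u₂ hw hu
    obtain ⟨g, hg, h1, h2⟩ := hTR R V I v0 hgood w₁ w₂ u₁ u₂ w₁.2 w₂.2
      (fun h => hw (Subtype.ext h)) u₁.2 u₂.2 (fun h => hu (Subtype.ext h))
    obtain ⟨q, rfl⟩ := hsub hg
    exact ⟨q, Subtype.ext h1, Subtype.ext h2⟩
  · refine ⟨⟨Finsupp.single o v0, hne o⟩, ?_⟩
    have e : ((MulAction.stabilizer (Equiv.Perm X) (⟨Finsupp.single o v0, hne o⟩ : X)).comap ρ) =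
        Subgroup.closure (Set.range i ∪ {z | ∃ (p q : S ⊕ Fin 4) (r : R), p ≠ q ∧
          (q ≠ .inr 0 ∨ r • v0 = 0) ∧ z = x p q r}) := by
      set P := Subgroup.closure (Set.range i ∪ {z | ∃ (p q : S ⊕ Fin 4) (r : R), p ≠ q ∧
          (q ≠ .inr 0 ∨ r • v0 = 0) ∧ z = x p q r}) with hP
      have hπi' : ∀ g, π (i g) (Finsupp.single o v0) = Finsupp.single o v0 := by
        intro g
        rw [hπi]
        show Finsupp.equivMapDomain _ (Finsupp.single o v0) = _
        rw [Finsupp.equivMapDomain_single]
        rfl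
      have hmem : ∀ q : Q, q ∈ ((MulAction.stabilizer (Equiv.Perm X)
          (⟨Finsupp.single o v0, hne o⟩ : X)).comap ρ) ↔
          π q (Finsupp.single o v0) = Finsupp.single o v0 := by
        intro q
        constructor
        · intro h
          exact congrArg Subtype.val h
        · intro h
          exact Subtype.ext h
      ext q
      rw [hmem]
      constructor
      · intro hq
        -- write q = n * i g
        let N : Subgroup Q := Subgroup.closure {z | ∃ a b r, a ≠ b ∧ z = x a b r}
        have hdec : ∃ n ∈ N, ∃ g, q = n * i g := by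
          have hconj : ∀ g, ∀ n ∈ N, i g * n * (i g)⁻¹ ∈ N := by
            intro g n hn
            induction hn using Subgroup.closure_induction with
            | mem n hn =>
              obtain ⟨a, b, r, hab, rfl⟩ := hn
              rw [hE.eqv g a b r hab]
              apply Subgroup.subset_closure
              refine ⟨_, _, _, ?_, rfl⟩
              intro h
              apply hab
              rcases a with a | a <;> rcases b with b | b
              · have : g • a = g • b := Sum.inl_injective h
                rw [smul_left_cancel g this]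
              · exact absurd h (by simp [mv])
              · exact absurd h (by simp [mv])
              · have : a = b := Sum.inr_injective h
                rw [this]
            | one => simp
            | mul a b _ _ ha hb =>
              have : i g * (a * b) * (i g)⁻¹ = (i g * a * (i g)⁻¹) * (i g * b * (i g)⁻¹) := by group
              rw [this]; exact N.mul_mem ha hb
            | inv a _ ha =>
              have : i g * a⁻¹ * (i g)⁻¹ = (i g * a * (i g)⁻¹)⁻¹ := by group
              rw [this]; exact N.inv_mem ha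
          have hq' : q ∈ Subgroup.closure (Set.range i ∪ {z | ∃ a b r, a ≠ b ∧ z = x a b r}) := by
            rw [hE.gen]; trivial
          clear hq
          induction hq' using Subgroup.closure_induction with
          | mem q hq =>
            rcases hq with ⟨g, rfl⟩ | hq
            · exact ⟨1, N.one_mem, g, by simp⟩
            · exact ⟨q, Subgroup.subset_closure hq, 1, by simp⟩
          | one => exact ⟨1, N.one_mem, 1, by simp⟩
          | mul a b _ _ ha hb =>
            obtain ⟨n, hn, g, rfl⟩ := ha
            obtain ⟨n', hn', g', rfl⟩ := hb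
            refine ⟨n * (i g * n' * (i g)⁻¹), N.mul_mem hn (hconj g n' hn'), g * g', ?_⟩
            rw [map_mul]; group
          | inv a _ ha =>
            obtain ⟨n, hn, g, rfl⟩ := ha
            refine ⟨i g⁻¹ * n⁻¹ * (i g⁻¹)⁻¹, hconj _ _ (N.inv_mem hn), g⁻¹, ?_⟩
            rw [inv_mul_cancel_right, mul_inv_rev, map_inv]
        obtain ⟨n, hn, g, rfl⟩ := hdec
        have hn' : π n (Finsupp.single o v0) = Finsupp.single o v0 := by
          rw [map_mul, Equiv.Perm.mul_apply, hπi'] at hq
          exact hq
        have hnE : π n ∈ EG R V I := by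
          have : N ≤ (EG R V I).comap π := by
            rw [Subgroup.closure_le]
            rintro _ ⟨a, b, r, hab, rfl⟩
            show π _ ∈ EG R V I
            rw [hπx a b r hab]
            exact Subgroup.subset_closure ⟨a, b, r, hab, rfl⟩
          exact this hn
        have h1 := hSTAB R V I v0 hgood o (π n) hnE hn'
        have h2 : PS R V I v0 o ≤ P.map π := by
          rw [PS, Subgroup.closure_le]
          rintro _ ⟨p, q, r, hpq, hr, rfl⟩
          exact ⟨x p q r, Subgroup.subset_closure (Or.inr ⟨p, q, r, hpq, hr, rfl⟩),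
            hπx p q r hpq⟩
        obtain ⟨n', hn'', he⟩ := h2 h1
        rw [← hinj he]
        exact P.mul_mem hn'' (Subgroup.subset_closure (Or.inl ⟨g, rfl⟩))
      · intro hq
        induction hq using Subgroup.closure_induction with
        | mem q hq =>
          rcases hq with ⟨g, rfl⟩ | ⟨p, q, r, hpq, hr, rfl⟩
          · exact hπi' g
          · rw [hπx p q r hpq, el_apply hpq]
            by_cases hqo : q = .inr 0
            · subst hqo
              have hr' : r • v0 = 0 := by
                rcases hr with h | h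
                · exact absurd rfl h
                · exact h
              show _ + Finsupp.single p (r • (Finsupp.single o v0 : I →₀ V) o) = _
              rw [Finsupp.single_eq_same, hr']; simp
            · have : (Finsupp.single o v0 : I →₀ V) q = 0 := by
                exact Finsupp.single_eq_of_ne (fun h => hqo h)
              rw [this]; simp
        | one => simp
        | mul a b _ _ ha hb => rw [map_mul, Equiv.Perm.mul_apply, hb, ha]
        | inv a _ ha => rw [map_inv, Equiv.Perm.inv_eq_iff_eq, ha]
    rw [e]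
    exact hFGS Λ S R V Q i x v0 hA hfp hE hgood 0

end Y208.BH
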