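import Mathlib

/-!
# Project BH: definitions

Every finitely presented group with solvable word problem embeds in a finitely presented group with
a faithful 2-transitive action with finitely generated point stabilizers.
-/

set_option autoImplicit false

open scoped commutatorElement

namespace Y208.BH

/-! ## 1. Steinberg relations -/

/-- The Steinberg relations for the elements `x i j r`, `i ≠ j`. -/
structure St {R I Γ : Type} [Ring R] [Group Γ] (x : I → I → R → Γ) : Prop where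
  add : ∀ i j, i ≠ j → ∀ a b, x i j (a + b) = x i j a * x i j b
  mul : ∀ i j k, i ≠ j → j ≠ k → i ≠ k → ∀ a b, ⁅x i j a, x j k b⁆ = x i k (a * b)
  comm : ∀ i j k l, i ≠ j → k ≠ l → j ≠ k → i ≠ l → ∀ a b, Commute (x i j a) (x k l b)

open Classical in
/-- The elementary transformation `w ↦ w + (r • w j) e_i` of the vectors with finitely many nonzero
coordinates in the module `V` (the identity if `i = j`). -/
noncomputable def el {R V I : Type} [Ring R] [AddCommGroup V] [Module R V] (i j : I) (r : R) :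
    Equiv.Perm (I →₀ V) :=
  if h : i = j then 1 else
  { toFun := fun w => w + Finsupp.single i (r • w j)
    invFun := fun w => w - Finsupp.single i (r • w j)
    left_inv := fun w => by simp [h]
    right_inv := fun w => by simp [h] }

theorem el_apply {R V I : Type} [Ring R] [AddCommGroup V] [Module R V] {i j : I} (h : i ≠ j) (r : R)
    (w : I →₀ V) : el i j r w = w + Finsupp.single i (r • w j) := by
  simp [el, h]

theorem el_self {R V I : Type} [Ring R] [AddCommGroup V] [Module R V] (i : I) (r : R) :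
    (el i i r : Equiv.Perm (I →₀ V)) = 1 := by
  simp [el]

theorem st_el (R V I : Type) [Ring R] [AddCommGroup V] [Module R V] :
    St (fun i j r => (el i j r : Equiv.Perm (I →₀ V)) : I → I → R → Equiv.Perm (I →₀ V)) where
  add i j h a b := by
    apply Equiv.ext
    intro w
    rw [Equiv.Perm.mul_apply, el_apply h, el_apply h, el_apply h]
    have : (w + Finsupp.single i (b • w j)) j = w j := by simp [h]
    rw [this, add_assoc, ← Finsupp.single_add, add_smul, add_comm (a • w j)]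
  mul i j k h1 h2 h3 a b := by
    rw [commutatorElement_def, mul_inv_eq_iff_eq_mul, mul_inv_eq_iff_eq_mul]
    apply Equiv.ext
    intro w
    simp only [Equiv.Perm.mul_apply, el_apply h1, el_apply h2, el_apply h3]
    ext l
    simp [h2, h3, mul_smul, smul_add]
    abel
  comm i j k l h1 h2 h3 h4 a b := by
    apply Equiv.ext
    intro w
    simp only [Equiv.Perm.mul_apply, el_apply h1, el_apply h2]
    ext m
    simp [h3.symm, h4]
    abel

/-- The transformation which multiplies the coordinate `o` by the unit `u`. -/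
noncomputable def dg {R V I : Type} [Ring R] [AddCommGroup V] [Module R V] (o : I) (u : Rˣ) :
    Equiv.Perm (I →₀ V) where
  toFun w := w + Finsupp.single o ((u : R) • w o - w o)
  invFun w := w + Finsupp.single o (((u⁻¹ : Rˣ) : R) • w o - w o)
  left_inv w := by
    simp only [Finsupp.coe_add, Pi.add_apply, Finsupp.single_eq_same, add_sub_cancel]
    rw [smul_smul, Units.inv_mul, one_smul, add_assoc, ← Finsupp.single_add]
    simp
  right_inv w := by
    simp only [Finsupp.coe_add, Pi.add_apply, Finsupp.single_eq_same, add_sub_cancel]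
    rw [smul_smul, Units.mul_inv, one_smul, add_assoc, ← Finsupp.single_add]
    simp

/-- the group generated by the elementary transformations -/
noncomputable def EG (R V I : Type) [Ring R] [AddCommGroup V] [Module R V] :
    Subgroup (Equiv.Perm (I →₀ V)) :=
  Subgroup.closure {g | ∃ (i j : I) (r : R), i ≠ j ∧ g = el i j r}

/-- The relators of the Steinberg group. -/
def stRel (R I : Type) [Ring R] : Set (FreeGroup (I × I × R)) :=
  let x : I → I → R → FreeGroup (I × I × R) := fun i j r => FreeGroup.of (i, j, r)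
  {w | (∃ i r, w = x i i r) ∨
    (∃ i j a b, i ≠ j ∧ w = x i j a * x i j b * (x i j (a + b))⁻¹) ∨
    (∃ i j k a b, i ≠ j ∧ j ≠ k ∧ i ≠ k ∧ w = ⁅x i j a, x j k b⁆ * (x i k (a * b))⁻¹) ∨
    (∃ i j k l a b, i ≠ j ∧ k ≠ l ∧ j ≠ k ∧ i ≠ l ∧ w = ⁅x i j a, x k l b⁆)}

/-- The Steinberg group. -/
abbrev SU (R I : Type) [Ring R] : Type := PresentedGroup (stRel R I)

/-- The generators of the Steinberg group. -/
def xs {R I : Type} [Ring R] (i j : I) (r : R) : SU R I := PresentedGroup.of (i, j, r)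

theorem xs_self {R I : Type} [Ring R] (i : I) (r : R) : (xs i i r : SU R I) = 1 := by
  apply (PresentedGroup.one_of_mem (rels := stRel R I))
  exact Or.inl ⟨i, r, rfl⟩

theorem st_xs (R I : Type) [Ring R] : St (fun i j r => (xs i j r : SU R I)) where
  add i j h a b := by
    have := PresentedGroup.one_of_mem (rels := stRel R I)
      (x := FreeGroup.of (i, j, a) * FreeGroup.of (i, j, b) * (FreeGroup.of (i, j, a + b))⁻¹)
      (Or.inr (Or.inl ⟨i, j, a, b, h, rfl⟩))
    rw [map_mul, map_mul, map_inv, mul_inv_eq_one] at this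
    exact this.symm
  mul i j k h1 h2 h3 a b := by
    have := PresentedGroup.one_of_mem (rels := stRel R I)
      (x := ⁅FreeGroup.of (i, j, a), FreeGroup.of (j, k, b)⁆ * (FreeGroup.of (i, k, a * b))⁻¹)
      (Or.inr (Or.inr (Or.inl ⟨i, j, k, a, b, h1, h2, h3, rfl⟩)))
    rw [map_mul, map_inv, mul_inv_eq_one, map_commutatorElement] at this
    exact this
  comm i j k l h1 h2 h3 h4 a b := by
    have := PresentedGroup.one_of_mem (rels := stRel R I)
      (x := ⁅FreeGroup.of (i, j, a), FreeGroup.of (k, l, b)⁆)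
      (Or.inr (Or.inr (Or.inr ⟨i, j, k, l, a, b, h1, h2, h3, h4, rfl⟩)))
    rw [map_commutatorElement, commutatorElement_eq_one_iff_commute] at this
    exact this

theorem lift_aux {R I Γ : Type} [Ring R] [Group Γ] (x : I → I → R → Γ) (hx : St x)
    (h0 : ∀ i r, x i i r = 1) :
    ∀ w ∈ stRel R I, FreeGroup.lift (fun p : I × I × R => x p.1 p.2.1 p.2.2) w = 1 := by
  rintro w (⟨i, r, rfl⟩ | ⟨i, j, a, b, h, rfl⟩ | ⟨i, j, k, a, b, h1, h2, h3, rfl⟩ |
    ⟨i, j, k, l, a, b, h1, h2, h3, h4, rfl⟩)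
  · simp [h0]
  · simp [hx.add i j h]
  · rw [map_mul, map_inv, map_commutatorElement, mul_inv_eq_one]
    simp only [FreeGroup.lift_apply_of]
    exact hx.mul i j k h1 h2 h3 a b
  · rw [map_commutatorElement, commutatorElement_eq_one_iff_commute]
    simp only [FreeGroup.lift_apply_of]
    exact hx.comm i j k l h1 h2 h3 h4 a b

/-- the homomorphism from the Steinberg group, if `x i i r = 1` -/
noncomputable def lift0 {R I Γ : Type} [Ring R] [Group Γ] (x : I → I → R → Γ) (hx : St x)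
    (h0 : ∀ i r, x i i r = 1) : SU R I →* Γ :=
  PresentedGroup.toGroup (lift_aux x hx h0)

theorem lift0_xs {R I Γ : Type} [Ring R] [Group Γ] (x : I → I → R → Γ) (hx : St x)
    (h0 : ∀ i r, x i i r = 1) (i j : I) (r : R) : lift0 x hx h0 (xs i j r) = x i j r := by
  rw [lift0, xs, PresentedGroup.toGroup.of]

/-- The action of the Steinberg group on vectors. -/
noncomputable def rho (R V I : Type) [Ring R] [AddCommGroup V] [Module R V] :
    SU R I →* Equiv.Perm (I →₀ V) :=
  lift0 (fun i j r => el i j r) (st_el R V I) el_self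

theorem rho_xs {R V I : Type} [Ring R] [AddCommGroup V] [Module R V] (i j : I) (r : R) :
    rho R V I (xs i j r) = el i j r := lift0_xs _ _ _ i j r

theorem exists_lift {R I Γ : Type} [Ring R] [Group Γ] (x : I → I → R → Γ) (hx : St x) :
    ∃ π : SU R I →* Γ, ∀ i j r, i ≠ j → π (xs i j r) = x i j r := by
  classical
  let x' : I → I → R → Γ := fun i j r => if i = j then 1 else x i j r
  have h' : ∀ i j r, i ≠ j → x' i j r = x i j r := fun i j r h => by simp [x', h]
  have hx' : St x' := by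
    refine ⟨fun i j h a b => ?_, fun i j k h1 h2 h3 a b => ?_, fun i j k l h1 h2 h3 h4 a b => ?_⟩
    · rw [h' _ _ _ h, h' _ _ _ h, h' _ _ _ h]; exact hx.add i j h a b
    · rw [h' _ _ _ h1, h' _ _ _ h2, h' _ _ _ h3]; exact hx.mul i j k h1 h2 h3 a b
    · rw [h' _ _ _ h1, h' _ _ _ h2]; exact hx.comm i j k l h1 h2 h3 h4 a b
  refine ⟨lift0 x' hx' (fun i r => by simp [x']), fun i j r h => ?_⟩
  rw [lift0_xs, h' _ _ _ h]

theorem closure_xs (R I : Type) [Ring R] :
    Subgroup.closure {z : SU R I | ∃ (i j : I) (r : R), i ≠ j ∧ z = xs i j r} = ⊤ := by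
  rw [eq_top_iff, ← PresentedGroup.closure_range_of (rels := stRel R I), Subgroup.closure_le]
  rintro _ ⟨⟨i, j, r⟩, rfl⟩
  by_cases h : i = j
  · subst h
    have := xs_self i r
    rw [xs] at this
    rw [this]
    exact Subgroup.one_mem _
  · exact Subgroup.subset_closure ⟨i, j, r, h, rfl⟩

section mapSU
variable {R R' I I' : Type} [Ring R] [Ring R']

theorem st_map (τ : I → I') (hτ : Function.Injective τ) (f : R →ₙ+* R') :
    St (fun i j r => (xs (τ i) (τ j) (f r) : SU R' I')) where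
  add i j h a b := by
    rw [map_add]; exact (st_xs R' I').add _ _ (hτ.ne h) _ _
  mul i j k h1 h2 h3 a b := by
    rw [map_mul]; exact (st_xs R' I').mul _ _ _ (hτ.ne h1) (hτ.ne h2) (hτ.ne h3) _ _
  comm i j k l h1 h2 h3 h4 a b :=
    (st_xs R' I').comm _ _ _ _ (hτ.ne h1) (hτ.ne h2) (hτ.ne h3) (hτ.ne h4) _ _

/-- A nonunital homomorphism of rings and an injection of the indices induce a homomorphism of
the Steinberg groups. -/
noncomputable def mapSU (τ : I → I') (hτ : Function.Injective τ) (f : R →ₙ+* R') :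
    SU R I →* SU R' I' :=
  lift0 (fun i j r => xs (τ i) (τ j) (f r)) (st_map τ hτ f) (fun _ _ => xs_self _ _)

theorem mapSU_xs (τ : I → I') (hτ : Function.Injective τ) (f : R →ₙ+* R') (i j : I) (r : R) :
    mapSU τ hτ f (xs i j r) = xs (τ i) (τ j) (f r) := lift0_xs _ _ _ i j r

end mapSU

/-- A swindle: the ring is an infinite sum ring (in a weak form). -/
def SwR (R : Type) [Ring R] : Prop :=
  ∃ (e e' s s' : R) (Φ : R →ₙ+* R), e' * e = 1 ∧ e' * s = 0 ∧ s' * e = 0 ∧
    (∀ a, s' * s * Φ a = Φ a) ∧ (∀ a, Φ a * (s' * s) = Φ a) ∧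
    ∀ a, Φ a = e * a * e' + s * Φ a * s'

/-- a useful identity for commutators -/
theorem comm_assoc {Γ : Type} [Group Γ] {g h l : Γ} (h1 : Commute g l)
    (h2 : Commute ⁅g, h⁆ ⁅h, l⁆) (h3 : Commute ⁅g, ⁅h, l⁆⁆ ⁅h, l⁆) :
    ⁅⁅g, h⁆, l⁆ = ⁅g, ⁅h, l⁆⁆ := by
  have e1 : l * ⁅g, h⁆ * l⁻¹ = g * ⁅h, l⁆⁻¹ * g⁻¹ * ⁅g, h⁆ * ⁅h, l⁆ := by
    have h1' : l * g = g * l := h1.eq.symm
    simp only [commutatorElement_def]
    have e : l * (g * h * g⁻¹ * h⁻¹) * l⁻¹ = (l * g) * h * g⁻¹ * h⁻¹ * l⁻¹ := by group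
    rw [e, h1']
    have e : g * (h * l * h⁻¹ * l⁻¹)⁻¹ * g⁻¹ * (g * h * g⁻¹ * h⁻¹) * (h * l * h⁻¹ * l⁻¹) =
      g * l * h * (l⁻¹ * g⁻¹) * l * h⁻¹ * l⁻¹ := by group
    rw [e]
    have e : l⁻¹ * g⁻¹ = g⁻¹ * l⁻¹ := by
      rw [← mul_inv_rev, ← mul_inv_rev, h1']
    rw [e]
    group
  have e2 : ⁅⁅g, h⁆, l⁆ = ⁅h, l⁆⁻¹ * (g * ⁅h, l⁆ * g⁻¹) := by
    have : ⁅⁅g, h⁆, l⁆ = ⁅g, h⁆ * (l * ⁅g, h⁆ * l⁻¹)⁻¹ := by
      rw [commutatorElement_def ⁅g, h⁆ l]; group
    rw [this, e1]
    have e : ⁅g, h⁆ * (g * ⁅h, l⁆⁻¹ * g⁻¹ * ⁅g, h⁆ * ⁅h, l⁆)⁻¹ =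
      (⁅g, h⁆ * ⁅h, l⁆⁻¹) * ⁅g, h⁆⁻¹ * (g * ⁅h, l⁆ * g⁻¹) := by group
    rw [e, (h2.inv_right).eq]
    group
  have e3 : g * ⁅h, l⁆ * g⁻¹ = ⁅g, ⁅h, l⁆⁆ * ⁅h, l⁆ := by
    rw [commutatorElement_def g ⁅h, l⁆]; group
  rw [e2, e3, h3.eq]
  group

/-! ## 2. Letters -/

/-- The relations for the letters; `none` stands for the unit of the ring, `some a` are the
generators of the ring. -/
structure LetRel {A I Γ : Type} [Group Γ] (y : I → I → Option A → Γ) : Prop where
  sq : ∀ i j a, i ≠ j → y i j a * y i j a = 1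
  comm : ∀ i j k l a b, i ≠ j → k ≠ l → j ≠ k → i ≠ l → Commute (y i j a) (y k l b)
  mul1 : ∀ i j k a, i ≠ j → j ≠ k → i ≠ k → ⁅y i j a, y j k none⁆ = y i k a
  mul2 : ∀ i j k a, i ≠ j → j ≠ k → i ≠ k → ⁅y i j none, y j k a⁆ = y i k a

/-- Steinberg relations over `F₂` for the elements of a monoid -/
structure WRel {M I Γ : Type} [Monoid M] [Group Γ] (X : I → I → M → Γ) : Prop where
  sq : ∀ i j w, i ≠ j → X i j w * X i j w = 1
  comm : ∀ i j k l v w, i ≠ j → k ≠ l → j ≠ k → i ≠ l → Commute (X i j v) (X k l w)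
  mul : ∀ i j k v w, i ≠ j → j ≠ k → i ≠ k → ⁅X i j v, X j k w⁆ = X i k (v * w)

/-- Allowed pairs of indices: different indices, at least one of which is one of the four extra
indices. -/
def Al {S : Type} (i j : S ⊕ Fin 4) : Prop := i ≠ j ∧ ((∃ c, i = .inr c) ∨ ∃ c, j = .inr c)

/-- The relations between the letters with allowed indices. They contain at most two indices of
`S`. -/
structure PairRel {A S Γ : Type} [Group Γ] (z : S ⊕ Fin 4 → S ⊕ Fin 4 → Option A → Γ) : Prop where
  sq : ∀ i j a, Al i j → z i j a * z i j a = 1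
  comm : ∀ i j k l a b, Al i j → Al k l → j ≠ k → i ≠ l → Commute (z i j a) (z k l b)
  mul1 : ∀ i j k a, Al i j → Al j k → Al i k → ⁅z i j a, z j k none⁆ = z i k a
  mul2 : ∀ i j k a, Al i j → Al j k → Al i k → ⁅z i j none, z j k a⁆ = z i k a
  ind1 : ∀ i j j' k a, i ≠ k → Al i j → Al j k → Al i j' → Al j' k →
    ⁅z i j a, z j k none⁆ = ⁅z i j' a, z j' k none⁆
  ind2 : ∀ i j j' k a, i ≠ k → Al i j → Al j k → Al i j' → Al j' k →
    ⁅z i j none, z j k a⁆ = ⁅z i j' a, z j' k none⁆

/-! ## 3. The group -/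

/-- `Λ` acts on the indices, the four extra indices are fixed. -/
def mv {Λ S : Type} [Group Λ] [MulAction Λ S] (g : Λ) : S ⊕ Fin 4 → S ⊕ Fin 4 :=
  Sum.map (fun s => g • s) id

/-- Actions of type (A) in which nontrivial elements move infinitely many points. -/
structure TypeA (Λ S : Type) [Group Λ] [MulAction Λ S] : Prop where
  fp : Group.IsFinitelyPresented Λ
  inf : Infinite S
  orb : ∃ E : Finset (S × S), ∀ x y : S, ∃ g : Λ, ∃ p ∈ E, g • p.1 = x ∧ g • p.2 = y
  stab : ∀ s : S, (MulAction.stabilizer Λ s).FG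
  moves : ∀ g : Λ, g ≠ 1 → {s : S | g • s ≠ s}.Infinite

/-- `Q` is the semidirect product of the Steinberg group with indices in `S ⊕ Fin 4` and `Λ`. -/
structure Ext {Λ S R Q : Type} [Group Λ] [MulAction Λ S] [Ring R] [Group Q] (i : Λ →* Q)
    (x : S ⊕ Fin 4 → S ⊕ Fin 4 → R → Q) : Prop where
  st : St x
  eqv : ∀ g a b r, a ≠ b → i g * x a b r * (i g)⁻¹ = x (mv g a) (mv g b) r
  gen : Subgroup.closure (Set.range i ∪ {z | ∃ a b r, a ≠ b ∧ z = x a b r}) = ⊤
  univ : ∀ (Γ : Type) [Group Γ] (i' : Λ →* Γ) (x' : S ⊕ Fin 4 → S ⊕ Fin 4 → R → Γ), St x' →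
    (∀ g a b r, a ≠ b → i' g * x' a b r * (i' g)⁻¹ = x' (mv g a) (mv g b) r) →
    ∃ π : Q →* Γ, (∀ g, π (i g) = i' g) ∧ ∀ a b r, a ≠ b → π (x a b r) = x' a b r

/-- The permutation of the coordinates of a vector given by `g ∈ Λ`. -/
noncomputable def pmv {Λ S : Type} (V : Type) [Group Λ] [MulAction Λ S] [AddCommGroup V] :
    Λ →* Equiv.Perm (S ⊕ Fin 4 →₀ V) where
  toFun g := (Finsupp.domCongr (M := V) (Equiv.sumCongr (MulAction.toPerm g) (Equiv.refl (Fin 4)))).toEquiv
  map_one' := by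
    apply Equiv.ext
    intro w
    ext a
    rcases a with a | a <;> simp [Finsupp.domCongr, Finsupp.equivMapDomain, MulAction.toPerm]
  map_mul' g h := by
    apply Equiv.ext
    intro w
    ext a
    rcases a with a | a <;> simp [Finsupp.domCongr, Finsupp.equivMapDomain, MulAction.toPerm, mul_smul]

/-- A faithful module over a ring of characteristic two with doubly transitive action and finitely
generated annihilator of the vector `v0`. -/
structure Good (R V : Type) [Ring R] [AddCommGroup V] [Module R V] (v0 : V) : Prop where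
  two : (2 : R) = 0
  faithful : ∀ r : R, (∀ v : V, r • v = 0) → r = 0
  tr1 : ∀ v u : V, v ≠ 0 → ∃ r : R, r • v = u
  tr2 : ∀ v1 v2 : V, v1 ≠ 0 → v2 ≠ 0 → v1 ≠ v2 → ∃ r : R, r • v1 = 0 ∧ r • v2 ≠ 0
  v0ne : v0 ≠ 0
  ann : ∃ T : Finset R, (∀ t ∈ T, t • v0 = 0) ∧
    ∀ r : R, r • v0 = 0 → r ∈ Submodule.span R (T : Set R)

/-- finitely presented algebras over the field with two elements -/
def FPA (R : Type) [Ring R] [Algebra (ZMod 2) R] : Prop :=
  ∃ (n : ℕ) (φ : FreeAlgebra (ZMod 2) (Fin n) →ₐ[ZMod 2] R)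
    (T : Finset (FreeAlgebra (ZMod 2) (Fin n))),
    Function.Surjective φ ∧
      ∀ p, φ p = 0 ↔ p ∈ TwoSidedIdeal.span (T : Set (FreeAlgebra (ZMod 2) (Fin n)))

/-! ## 4. Thompson's group `F` -/

/-- the positive dyadic rationals -/
abbrev Dy : Type := {q : ℚ // 0 < q ∧ ∃ (k : ℕ) (m : ℤ), 2 ^ k * q = m}

/-- the piecewise linear map which is the identity up to `n`, has slope `2` between `n` and
`n + 1` and is the translation by `1` after `n + 1` -/
def th (n : ℕ) (t : ℚ) : ℚ := if t ≤ n then t else if t ≤ n + 1 then n + 2 * (t - n) else t + 1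

/-- Thompson's relations -/
def TRel {Γ : Type} [Group Γ] (X : ℕ → Γ) : Prop := ∀ j k, j < k → X (k + 1) * X j = X j * X k

/-- an action of a group generated by elements `X n` satisfying Thompson's relations, where `X n`
acts by `th n` -/
structure TAct (G : Type) [Group G] [MulAction G Dy] (X : ℕ → G) : Prop where
  rel : TRel X
  gen : Subgroup.closure (Set.range X) = ⊤
  act : ∀ (n : ℕ) (t : Dy), ((X n • t : Dy) : ℚ) = th n t

end Y208.BH
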