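import Pool.Agent.Y208.BH.Defs

/-!
# Project BH: exact statements of the tasks
-/

set_option autoImplicit false

open scoped commutatorElement TensorProduct

namespace Y208.BH

/-! ## Presentations -/

/-- TASK LETA: words in the letters. -/
def S_LETA : Prop := ∀ (A I Γ : Type) [Infinite I] [Group Γ] (y : I → I → Option A → Γ), LetRel y →
    ∃ X : I → I → FreeMonoid A → Γ, WRel X ∧ (∀ i j, i ≠ j → X i j 1 = y i j none) ∧
      ∀ i j a, i ≠ j → X i j (FreeMonoid.of a) = y i j (some a)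

/-- TASK LETB: linear combinations of words. -/
def S_LETB : Prop := ∀ (M I Γ : Type) [Monoid M] [Infinite I] [Group Γ] (X : I → I → M → Γ),
    WRel X → ∃ x : I → I → MonoidAlgebra (ZMod 2) M → Γ, St x ∧
      ∀ i j w, i ≠ j → x i j (MonoidAlgebra.of (ZMod 2) M w) = X i j w

/-- LET: the relations for the letters give the Steinberg relations over the free algebra. -/
def S_LET : Prop := ∀ (A I Γ : Type) [Infinite I] [Group Γ] (y : I → I → Option A → Γ), LetRel y →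
    ∃ x : I → I → FreeAlgebra (ZMod 2) A → Γ, St x ∧ (∀ i j, i ≠ j → x i j 1 = y i j none) ∧
      ∀ i j a, i ≠ j → x i j (FreeAlgebra.ι (ZMod 2) a) = y i j (some a)

/-- TASK PAIR -/
def S_PAIR : Prop := ∀ (A S Γ : Type) [Group Γ] (z : S ⊕ Fin 4 → S ⊕ Fin 4 → Option A → Γ),
    PairRel z → ∃ y : S ⊕ Fin 4 → S ⊕ Fin 4 → Option A → Γ, LetRel y ∧
      (∀ i j a, Al i j → y i j a = z i j a) ∧
      ∀ s t a c, s ≠ t → y (.inl s) (.inl t) a = ⁅z (.inl s) (.inr c) a, z (.inr c) (.inl t) none⁆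

/-- TASK UNIQ (two parts) -/
def S_UNIQ : Prop := ∀ (A I Γ : Type) [Infinite I] [Group Γ]
    (x x' : I → I → FreeAlgebra (ZMod 2) A → Γ), St x → St x' →
    (∀ i j, i ≠ j → x i j 1 = x' i j 1) →
    (∀ i j a, i ≠ j → x i j (FreeAlgebra.ι (ZMod 2) a) = x' i j (FreeAlgebra.ι (ZMod 2) a)) →
    ∀ i j r, i ≠ j → x i j r = x' i j r

/-- TASK QUO -/
def S_QUO : Prop := ∀ (R₀ R I Γ : Type) [Ring R₀] [Ring R] [Infinite I] [Group Γ] (φ : R₀ →+* R)
    (T : Set R₀) (x : I → I → R₀ → Γ), Function.Surjective φ →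
    (∀ r, φ r = 0 → r ∈ TwoSidedIdeal.span T) → St x →
    (∃ i j, i ≠ j ∧ ∀ t ∈ T, x i j t = 1) →
    ∃ x' : I → I → R → Γ, St x' ∧ ∀ i j r, i ≠ j → x' i j (φ r) = x i j r

/-- TASK FPQ -/
def S_FPQ : Prop := ∀ (Λ S R : Type) [Group Λ] [MulAction Λ S] [Ring R] [Algebra (ZMod 2) R],
    TypeA Λ S → FPA R → ∃ (Q : Type) (_ : Group Q) (i : Λ →* Q)
      (x : S ⊕ Fin 4 → S ⊕ Fin 4 → R → Q), Group.IsFinitelyPresented Q ∧ Ext i x

/-! ## Thompson's group -/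

/-- TASK TF1 -/
def S_TF1 : Prop := ∃ (G : Type) (_ : Group G) (X : ℕ → G), Group.IsFinitelyPresented G ∧ TRel X ∧
    Subgroup.closure (Set.range X) = ⊤ ∧
    ∀ (Γ : Type) [Group Γ] (X' : ℕ → Γ), TRel X' → ∃ π : G →* Γ, ∀ n, π (X n) = X' n

/-- TASK TF2 -/
def S_TF2 : Prop := ∃ X : ℕ → Equiv.Perm Dy, TRel X ∧ ∀ n t, ((X n t : Dy) : ℚ) = th n t

/-- TASK TF3 -/
def S_TF3 : Prop := ∀ (G : Type) [Group G] [MulAction G Dy] (X : ℕ → G), TAct G X →
    ∀ g : G, (∀ t : Dy, g • t = t) → g = 1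

/-- TASK TF4 -/
def S_TF4 : Prop := ∀ (G : Type) [Group G] [MulAction G Dy] (X : ℕ → G), TAct G X →
    ∀ t : Dy, (MulAction.stabilizer G t).FG

/-- TASK TF5 -/
def S_TF5 : Prop := ∀ (G : Type) [Group G] [MulAction G Dy] (X : ℕ → G), TAct G X →
    ∀ x y x' y' : Dy, (x : ℚ) < y → (x' : ℚ) < y' → ∃ g : G, g • x = x' ∧ g • y = y'

/-- TASK TYA -/
def S_TYA : Prop := ∃ (Λ S : Type) (_ : Group Λ) (_ : MulAction Λ S), TypeA Λ S

/-! ## Injectivity of the action of the Steinberg group -/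

/-- TASK CENT -/
def S_CENT : Prop := ∀ (R I : Type) [Ring R] [Infinite I] (z : SU R I), rho R R I z = 1 →
    ∀ y, Commute z y

/-- TASK NUH -/
def S_NUH : Prop := ∀ (R R' I : Type) [Ring R] [Ring R'] (f : R →ₙ+* R') (z : SU R I),
    rho R R I z = 1 → rho R' R' I (mapSU id Function.injective_id f z) = 1

/-- TASK CONJ -/
def S_CONJ : Prop := ∀ (R I : Type) [Ring R] [Infinite I] (s s' : R) (f g : R →ₙ+* R),
    (∀ r, s' * s * f r = f r) → (∀ r, f r * (s' * s) = f r) → (∀ r, g r = s * f r * s') →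
    ∀ z : SU R I, ∃ h : SU R I,
      mapSU id Function.injective_id g z = h * mapSU id Function.injective_id f z * h⁻¹

/-- TASK SUMU -/
def S_SUMU : Prop := ∀ (R I : Type) [Ring R] [Infinite I] (f g h : R →ₙ+* R) (q : R),
    (∀ a, h a = f a + g a) → (∀ a b, f a * g b = 0) → (∀ a b, g a * f b = 0) →
    (∀ a, g a * q = g a) → (∀ a, q * f a = 0) →
    ∀ z : SU R I, mapSU id Function.injective_id h z =
      mapSU id Function.injective_id f z * mapSU id Function.injective_id g z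

/-- TASK K2 -/
def S_K2 : Prop := ∀ (R I : Type) [Ring R] [Infinite I], SwR R → ∀ z : SU R I,
    rho R R I z = 1 → z = 1

/-- TASK K1 -/
def S_K1 : Prop := ∀ (R V I : Type) [Ring R] [AddCommGroup V] [Module R V] [Infinite I], SwR R →
    ∀ (o : I) (u : Rˣ), (dg o u : Equiv.Perm (I →₀ V)) ∈ EG R V I

/-! ## The action -/

/-- TASK TR -/
def S_TR : Prop := ∀ (R V I : Type) [Ring R] [AddCommGroup V] [Module R V] [Infinite I] (v0 : V),
    Good R V v0 → ∀ w₁ w₂ u₁ u₂ : I →₀ V, w₁ ≠ 0 → w₂ ≠ 0 → w₁ ≠ w₂ → u₁ ≠ 0 → u₂ ≠ 0 → u₁ ≠ u₂ →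
    ∃ g ∈ EG R V I, g w₁ = u₁ ∧ g w₂ = u₂

/-- elementary transformations which fix the vector `v0 e_m` -/
noncomputable def PS (R V I : Type) [Ring R] [AddCommGroup V] [Module R V] (v0 : V) (m : I) :
    Subgroup (Equiv.Perm (I →₀ V)) :=
  Subgroup.closure {h : Equiv.Perm (I →₀ V) | ∃ (p q : I) (r : R), p ≠ q ∧
      (q ≠ m ∨ r • v0 = 0) ∧ h = el p q r}

/-- the value of a row on a vector -/
noncomputable def pr {R V I : Type} [Ring R] [AddCommGroup V] [Module R V] (ζ : I →₀ R)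
    (w : I →₀ V) : V := ζ.sum fun j b => b • w j

/-- the transvection `w ↦ w + ξ ζ(w)` -/
noncomputable def tv {R V I : Type} [Ring R] [AddCommGroup V] [Module R V] (ξ ζ : I →₀ R)
    (w : I →₀ V) : I →₀ V := w + ξ.mapRange (fun a => a • pr ζ w) (zero_smul _ _)

/-- TASK TV -/
def S_TV : Prop := ∀ (R V I : Type) [Ring R] [AddCommGroup V] [Module R V] [Infinite I] (v0 : V)
    (m : I) (ξ ζ : I →₀ R), pr ζ ξ = 0 → ζ m • v0 = 0 → ∃ g ∈ PS R V I v0 m, ∀ w, g w = tv ξ ζ w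

/-- TASK STAB -/
def S_STAB : Prop := ∀ (R V I : Type) [Ring R] [AddCommGroup V] [Module R V] [Infinite I] (v0 : V),
    Good R V v0 → ∀ (o : I), ∀ g ∈ EG R V I, g (Finsupp.single o v0) = Finsupp.single o v0 →
    g ∈ PS R V I v0 o

/-- TASK ACT -/
def S_ACT : Prop := ∀ (Λ S R V Q : Type) [Group Λ] [MulAction Λ S] [Ring R] [AddCommGroup V]
    [Module R V] [Group Q] (i : Λ →* Q) (x : S ⊕ Fin 4 → S ⊕ Fin 4 → R → Q), Ext i x →
    ∃ π : Q →* Equiv.Perm (S ⊕ Fin 4 →₀ V), (∀ g, π (i g) = pmv V g) ∧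
      ∀ a b r, a ≠ b → π (x a b r) = el a b r

/-- TASK FGS -/
def S_FGS : Prop := ∀ (Λ S R V Q : Type) [Group Λ] [MulAction Λ S] [Ring R] [Algebra (ZMod 2) R]
    [AddCommGroup V] [Module R V] [Group Q] (i : Λ →* Q) (x : S ⊕ Fin 4 → S ⊕ Fin 4 → R → Q)
    (v0 : V), TypeA Λ S → FPA R → Ext i x → Good R V v0 → ∀ c : Fin 4,
    (Subgroup.closure (Set.range i ∪ {z | ∃ (p q : S ⊕ Fin 4) (r : R), p ≠ q ∧
      (q ≠ .inr c ∨ r • v0 = 0) ∧ z = x p q r})).FG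

/-- TASK INJ (the kernel of the action), from K2. -/
def S_INJ : Prop := ∀ (Λ S R V Q : Type) [Group Λ] [MulAction Λ S] [Ring R]
    [AddCommGroup V] [Module R V] [Group Q] (i : Λ →* Q) (x : S ⊕ Fin 4 → S ⊕ Fin 4 → R → Q)
    (v0 : V), TypeA Λ S → SwR R → Ext i x → Good R V v0 → ∀ π : Q →* Equiv.Perm (S ⊕ Fin 4 →₀ V),
    (∀ g, π (i g) = pmv V g) → (∀ a b r, a ≠ b → π (x a b r) = el a b r) → Function.Injective π

/-! ## The ring -/

/-- TASK BIM: bimodules over a central simple algebra. -/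
def S_BIM : Prop := ∀ (A : Type) [Ring A] [Algebra (ZMod 2) A], IsSimpleRing A →
    (∀ z : A, (∀ c, z * c = c * z) → ∃ r : ZMod 2, algebraMap (ZMod 2) A r = z) → FPA A →
    ∃ _ : Module (A ⊗[ZMod 2] Aᵐᵒᵖ) A, Good (A ⊗[ZMod 2] Aᵐᵒᵖ) A 1

end Y208.BH
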