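import Pool.Agent.Y208.BH.Stm
import Pool.Agent.Y208.LQ.Stm

/-!
# Project BH: statements about finitely presented algebras
-/

set_option autoImplicit false

open scoped TensorProduct

namespace Y208.BH

open Pool.SF Y208.LQ

/-- TASK FPO: the opposite algebra, and the comparison of the two definitions. -/
def S_FPO : Prop := (∀ (R : Type) [Ring R] [Algebra (ZMod 2) R], FinPres (ZMod 2) R → FPA R) ∧
  ∀ (R : Type) [Ring R] [Algebra (ZMod 2) R], FinPres (ZMod 2) R → FinPres (ZMod 2) Rᵐᵒᵖ

/-- TASK GRP: the group algebra of a finitely presented group with computable word problem has a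
recursive basis. -/
def S_GRP : Prop := ∀ (n : ℕ) (rels : Finset (FreeGroup (Fin n))),
    ComputablePred (fun w : List (Fin n × Bool) =>
      PresentedGroup.mk (rels : Set (FreeGroup (Fin n))) (FreeGroup.mk w) = 1) →
    ∃ (m : ℕ) (a : Fin m → MonoidAlgebra (ZMod 2) (PresentedGroup (rels : Set (FreeGroup (Fin n))))),
      Algebra.adjoin (ZMod 2) (Set.range a) = ⊤ ∧ HasRecBasis (ZMod 2) a

end Y208.BH
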